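import Pool.Agent.Run7.h153.EE.Iface
import Pool.Agent.Y685.TauC
import Pool.Agent.Y685.Scale

/-!
# Lattices commensurable with `L` and near to `c L`
-/

set_option autoImplicit false

open Filter
open scoped Topology PeriodPair

namespace Run7.h153.EE

open Pool.Agent.Y685 (LC Hm mem_LC LC_ω₂)
open Pool.Agent.Y685.H2 (diff_g)

/-- every lattice is equivalent to some `ℤ + ℤ τ` -/
theorem exists_LC' (L : PeriodPair) : ∃ τ c : ℂ, 0 < τ.im ∧ Hm (LC τ) L c := by
  have h1 : L.ω₁ ≠ 0 := L.indep.ne_zero 0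
  have h2 : (L.ω₂ / L.ω₁).im ≠ 0 := by
    intro h0
    have h3 := LinearIndependent.pair_iff.1 L.indep (-(L.ω₂ / L.ω₁).re) 1 (by
      have h4 : L.ω₂ / L.ω₁ = ((L.ω₂ / L.ω₁).re : ℂ) := by
        apply Complex.ext
        · simp
        · simp [h0]
      have h5 : L.ω₂ = ((L.ω₂ / L.ω₁).re : ℂ) * L.ω₁ := by
        rw [← h4, div_mul_cancel₀ _ h1]
      rw [one_smul, neg_smul, Complex.real_smul, ← h5]
      ring)
    exact one_ne_zero h3.2
  rcases lt_or_gt_of_ne h2 with h3 | h3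
  · refine ⟨-(L.ω₂ / L.ω₁), L.ω₁, by simpa using h3, h1, fun x => ?_⟩
    have him : 0 < (-(L.ω₂ / L.ω₁)).im := by simpa using h3
    rw [mem_LC him, PeriodPair.mem_lattice]
    constructor
    · rintro ⟨m, n, h⟩
      refine ⟨m, -n, mul_left_cancel₀ h1 ?_⟩
      rw [← h]
      push_cast
      field_simp
    · rintro ⟨m, n, h⟩
      refine ⟨m, -n, ?_⟩
      rw [← h]
      push_cast
      field_simp
  · refine ⟨L.ω₂ / L.ω₁, L.ω₁, h3, h1, fun x => ?_⟩
    rw [mem_LC h3, PeriodPair.mem_lattice]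
    constructor
    · rintro ⟨m, n, h⟩
      refine ⟨m, n, mul_left_cancel₀ h1 ?_⟩
      rw [← h]
      field_simp
    · rintro ⟨m, n, h⟩
      refine ⟨m, n, ?_⟩
      rw [← h]
      field_simp

/-- the numbers `q₁ w + q₂ w τ`, `q_i` rational, are dense -/
theorem dense_Q {w τ : ℂ} (hw : w ≠ 0) (hτ : 0 < τ.im) :
    DenseRange fun q : ℚ × ℚ => (q.1 : ℂ) * w + q.2 * (w * τ) := by
  have h1 : Function.Surjective fun x : ℝ × ℝ => (x.1 : ℂ) * w + x.2 * (w * τ) := by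
    intro z
    refine ⟨((z / w).re - (z / w).im / τ.im * τ.re, (z / w).im / τ.im), ?_⟩
    have h2 : z / w = (((z / w).re - (z / w).im / τ.im * τ.re : ℝ) : ℂ) + (((z / w).im / τ.im : ℝ) : ℂ) * τ := by
      apply Complex.ext
      · simp
      · simp [hτ.ne']
    have h3 : z = w * (z / w) := by field_simp
    simp only
    conv_rhs => rw [h3, h2]
    ring
  have h2 : Continuous fun x : ℝ × ℝ => (x.1 : ℂ) * w + x.2 * (w * τ) := by fun_prop
  have h3 : DenseRange (Prod.map ((↑) : ℚ → ℝ) ((↑) : ℚ → ℝ)) := Rat.denseRange_cast.prodMap Rat.denseRange_cast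
  have h4 := h1.denseRange.comp h3 h2
  convert h4 using 2
  rename_i q
  simp

theorem t_A : S_A := by
  intro L c hc ε hε
  obtain ⟨τ, w, hτ, h⟩ := exists_LC' L
  have hw := h.c0
  have hcw : c * w ≠ 0 := mul_ne_zero hc hw
  have hdiv : c * w * τ / (c * w) = τ := by field_simp
  have hd : ContinuousAt (fun p : ℂ × ℂ => p.2 / p.1) (c * w, c * w * τ) :=
    continuousAt_snd.div continuousAt_fst hcw
  have c2 : ContinuousAt (fun p : ℂ × ℂ => (LC (p.2 / p.1)).g₂ / p.1 ^ 4) (c * w, c * w * τ) := by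
    refine ContinuousAt.div ?_ (continuousAt_fst.pow 4) (pow_ne_zero _ hcw)
    have h1 : ContinuousAt (fun s : ℂ => (LC s).g₂) ((fun p : ℂ × ℂ => p.2 / p.1) (c * w, c * w * τ)) := by
      simp only [hdiv]
      exact (diff_g hτ).1.continuousAt
    exact ContinuousAt.comp (f := fun p : ℂ × ℂ => p.2 / p.1) (g := fun s : ℂ => (LC s).g₂) h1 hd
  have c3 : ContinuousAt (fun p : ℂ × ℂ => (LC (p.2 / p.1)).g₃ / p.1 ^ 6) (c * w, c * w * τ) := by
    refine ContinuousAt.div ?_ (continuousAt_fst.pow 6) (pow_ne_zero _ hcw)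
    have h1 : ContinuousAt (fun s : ℂ => (LC s).g₃) ((fun p : ℂ × ℂ => p.2 / p.1) (c * w, c * w * τ)) := by
      simp only [hdiv]
      exact (diff_g hτ).2.continuousAt
    exact ContinuousAt.comp (f := fun p : ℂ × ℂ => p.2 / p.1) (g := fun s : ℂ => (LC s).g₃) h1 hd
  have v2 : (LC (c * w * τ / (c * w))).g₂ / (c * w) ^ 4 = L.g₂ / c ^ 4 := by
    rw [hdiv, h.g₂]
    field_simp
  have v3 : (LC (c * w * τ / (c * w))).g₃ / (c * w) ^ 6 = L.g₃ / c ^ 6 := by
    rw [hdiv, h.g₃]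
    field_simp
  have ev : ∀ᶠ p : ℂ × ℂ in 𝓝 (c * w, c * w * τ), ‖(LC (p.2 / p.1)).g₂ / p.1 ^ 4 - L.g₂ / c ^ 4‖ < ε ∧
      ‖(LC (p.2 / p.1)).g₃ / p.1 ^ 6 - L.g₃ / c ^ 6‖ < ε ∧ p.1 ≠ 0 ∧ 0 < (p.2 / p.1).im := by
    have e2 := Metric.continuousAt_iff'.1 c2 ε hε
    have e3 := Metric.continuousAt_iff'.1 c3 ε hε
    simp only [v2, v3, dist_eq_norm] at e2 e3
    have e4 : ∀ᶠ p : ℂ × ℂ in 𝓝 (c * w, c * w * τ), p.1 ≠ 0 := continuousAt_fst.eventually_ne hcw
    have e5 : ∀ᶠ p : ℂ × ℂ in 𝓝 (c * w, c * w * τ), 0 < (p.2 / p.1).im := by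
      have h1 : ContinuousAt (fun p : ℂ × ℂ => (p.2 / p.1).im) (c * w, c * w * τ) :=
        Complex.continuous_im.continuousAt.comp hd
      refine h1.eventually (lt_mem_nhds ?_)
      simp only [hdiv]
      exact hτ
    filter_upwards [e2, e3, e4, e5] with p h2 h3 h4 h5 using ⟨h2, h3, h4, h5⟩
  have hQ : DenseRange (Prod.map (fun q : ℚ × ℚ => (q.1 : ℂ) * w + q.2 * (w * τ))
      (fun q : ℚ × ℚ => (q.1 : ℂ) * w + q.2 * (w * τ))) := (dense_Q hw hτ).prodMap (dense_Q hw hτ)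
  obtain ⟨p, ⟨q, rfl⟩, h2, h3, hp0, hp⟩ := Dense.inter_nhds_nonempty hQ ev
  set a : ℂ := (q.1.1 : ℂ) * w + q.1.2 * (w * τ) with ha
  set b : ℂ := (q.2.1 : ℂ) * w + q.2.2 * (w * τ) with hb
  have e1 : (Prod.map (fun q : ℚ × ℚ => (q.1 : ℂ) * w + q.2 * (w * τ))
      (fun q : ℚ × ℚ => (q.1 : ℂ) * w + q.2 * (w * τ)) q).1 = a := rfl
  have e2 : (Prod.map (fun q : ℚ × ℚ => (q.1 : ℂ) * w + q.2 * (w * τ))
      (fun q : ℚ × ℚ => (q.1 : ℂ) * w + q.2 * (w * τ)) q).2 = b := rfl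
  rw [e1, e2] at h2 h3 hp
  rw [e1] at hp0
  have hind : LinearIndependent ℝ ![a, b] := by
    rw [LinearIndependent.pair_iff]
    intro s t hst
    have h5 : (s : ℂ) + t * (b / a) = 0 := by
      have h6 : a * ((s : ℂ) + t * (b / a)) = 0 := by
        rw [← hst, Complex.real_smul, Complex.real_smul]
        field_simp
      exact (mul_eq_zero.1 h6).resolve_left hp0
    have h6 := congrArg Complex.im h5
    simp only [Complex.add_im, Complex.ofReal_im, Complex.mul_im, Complex.ofReal_re, zero_mul, add_zero,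
      zero_add, Complex.zero_im] at h6
    have ht : t = 0 := (mul_eq_zero.1 h6).resolve_right hp.ne'
    subst ht
    have h7 := congrArg Complex.re h5
    simp at h7
    exact ⟨h7, rfl⟩
  let L' : PeriodPair := ⟨a, b, hind⟩
  have hL' : Hm (LC (b / a)) L' a := by
    refine ⟨hp0, fun x => ?_⟩
    rw [mem_LC hp, PeriodPair.mem_lattice]
    constructor
    · rintro ⟨m, n, h⟩
      refine ⟨m, n, mul_left_cancel₀ hp0 ?_⟩
      rw [← h]
      show _ = (m : ℂ) * a + n * b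
      field_simp
    · rintro ⟨m, n, h⟩
      refine ⟨m, n, ?_⟩
      rw [← h]
      show (m : ℂ) * a + n * b = _
      field_simp
  refine ⟨L', q.1.1.den * q.1.2.den * q.2.1.den * q.2.2.den, ?_, ?_, ?_, ?_⟩
  · have := q.1.1.den_pos
    have := q.1.2.den_pos
    have := q.2.1.den_pos
    have := q.2.2.den_pos
    positivity
  · have hmw : ∀ m n : ℤ, (m : ℂ) * w + n * (w * τ) ∈ L.lattice := by
      intro m n
      have h5 : (m : ℂ) * w + n * (w * τ) = w * (m + n * τ) := by ring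
      rw [h5, h.mem, mem_LC hτ]
      exact ⟨m, n, rfl⟩
    intro l hl
    rw [PeriodPair.mem_lattice] at hl
    obtain ⟨m, n, hmn⟩ := hl
    have hmn' : l = m * a + n * b := hmn.symm
    rw [hmn', ha, hb]
    have r : ∀ x : ℚ, (x : ℂ) * (x.den : ℂ) = (x.num : ℂ) := by
      intro x
      exact_mod_cast congrArg (fun y : ℚ => (y : ℂ)) (Rat.mul_den_eq_num x)
    have h5 := hmw (m * q.1.1.num * q.1.2.den * q.2.1.den * q.2.2.den + n * q.2.1.num * q.1.1.den * q.1.2.den * q.2.2.den)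
      (m * q.1.2.num * q.1.1.den * q.2.1.den * q.2.2.den + n * q.2.2.num * q.1.1.den * q.1.2.den * q.2.1.den)
    convert h5 using 1
    push_cast
    rw [← r q.1.1, ← r q.1.2, ← r q.2.1, ← r q.2.2]
    ring
  · rw [hL'.g₂]
    exact h2
  · rw [hL'.g₃]
    exact h3

end Run7.h153.EE
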