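import Pool.Agent.Run7.h153.EE.Iface
import Pool.Agent.H667R3.W4

/-!
# The roots of `4 x³ - g₂ x - g₃` of a lattice
-/

set_option autoImplicit false

open scoped PeriodPair

namespace Run7.h153.EE

/-- half periods -/
theorem half (L : PeriodPair) {w : ℂ} (hw : w ∈ L.lattice) (hw2 : w / 2 ∉ L.lattice) :
    4 * ℘[L] (w / 2) ^ 3 - L.g₂ * ℘[L] (w / 2) - L.g₃ = 0 := by
  have h1 := L.derivWeierstrassP_sq (w / 2) hw2
  have h2 : ℘'[L] (w / 2) = 0 := by
    have h3 : ℘'[L] (w / 2) = ℘'[L] (-(w / 2)) := by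
      have h4 := L.derivWeierstrassP_add_coe (-(w / 2)) ⟨w, hw⟩
      rw [← h4]
      congr 1
      simp only
      ring
    rw [L.derivWeierstrassP_neg] at h3
    have h5 : (2 : ℂ) * ℘'[L] (w / 2) = 0 := by linear_combination h3
    exact (mul_eq_zero.1 h5).resolve_left two_ne_zero
  rw [h2] at h1
  linear_combination -h1

theorem indep_z (L : PeriodPair) {x y : ℝ} (h : (x : ℂ) * L.ω₁ + y * L.ω₂ = 0) : x = 0 ∧ y = 0 := by
  have h1 := LinearIndependent.pair_iff.1 L.indep x y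
  refine h1 ?_
  rw [Complex.real_smul, Complex.real_smul]
  exact h

/-- a combination with a non-integral coefficient is not in the lattice -/
theorem notMem (L : PeriodPair) {x y : ℝ} (h : (∀ m : ℤ, x ≠ m) ∨ ∀ n : ℤ, y ≠ n) :
    (x : ℂ) * L.ω₁ + y * L.ω₂ ∉ L.lattice := by
  intro h1
  rw [PeriodPair.mem_lattice] at h1
  obtain ⟨m, n, h1⟩ := h1
  have h2 := indep_z L (x := x - m) (y := y - n) (by push_cast; linear_combination -h1)
  rcases h with h | h
  · exact h m (sub_eq_zero.1 h2.1)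
  · exact h n (sub_eq_zero.1 h2.2)

theorem half_ne (m : ℤ) : (1 / 2 : ℝ) ≠ m := by
  intro h
  have h1 : (1 : ℝ) = 2 * m := by linarith
  have h2 : (1 : ℤ) = 2 * m := by exact_mod_cast h1
  omega

theorem half_ne' (m : ℤ) : (-(1 / 2) : ℝ) ≠ m := by
  intro h
  have h1 : (-1 : ℝ) = 2 * m := by linarith
  have h2 : (-1 : ℤ) = 2 * m := by exact_mod_cast h1
  omega

/-- the roots -/
theorem exists_e (L : PeriodPair) : ∃ e : Fin 3 → ℂ, Function.Injective e ∧
    ∀ x : ℂ, 4 * x ^ 3 - L.g₂ * x - L.g₃ = 4 * ((x - e 0) * (x - e 1) * (x - e 2)) := by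
  have m1 : L.ω₁ / 2 ∉ L.lattice := L.ω₁_div_two_notMem_lattice
  have m2 : L.ω₂ / 2 ∉ L.lattice := L.ω₂_div_two_notMem_lattice
  have m3 : (L.ω₁ + L.ω₂) / 2 ∉ L.lattice := by
    have h1 := notMem L (x := 1 / 2) (y := 1 / 2) (Or.inl half_ne)
    convert h1 using 1
    push_cast
    ring
  have d12 : ℘[L] (L.ω₁ / 2) ≠ ℘[L] (L.ω₂ / 2) := by
    intro he
    rcases (H667R3.wp_eq_iff L m1 m2).1 he with h | h
    · refine notMem L (x := 1 / 2) (y := 1 / 2) (Or.inl half_ne) ?_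
      convert h using 1
      push_cast
      ring
    · refine notMem L (x := 1 / 2) (y := -(1 / 2)) (Or.inl half_ne) ?_
      convert h using 1
      push_cast
      ring
  have d13 : ℘[L] (L.ω₁ / 2) ≠ ℘[L] ((L.ω₁ + L.ω₂) / 2) := by
    intro he
    rcases (H667R3.wp_eq_iff L m1 m3).1 he with h | h
    · refine notMem L (x := 1) (y := 1 / 2) (Or.inr half_ne) ?_
      convert h using 1
      push_cast
      ring
    · refine notMem L (x := 0) (y := -(1 / 2)) (Or.inr half_ne') ?_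
      convert h using 1
      push_cast
      ring
  have d23 : ℘[L] (L.ω₂ / 2) ≠ ℘[L] ((L.ω₁ + L.ω₂) / 2) := by
    intro he
    rcases (H667R3.wp_eq_iff L m2 m3).1 he with h | h
    · refine notMem L (x := 1 / 2) (y := 1) (Or.inl half_ne) ?_
      convert h using 1
      push_cast
      ring
    · refine notMem L (x := -(1 / 2)) (y := 0) (Or.inl half_ne') ?_
      convert h using 1
      push_cast
      ring
  have r1 := half L L.ω₁_mem_lattice m1
  have r2 := half L L.ω₂_mem_lattice m2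
  have r3 := half L (L.lattice.add_mem L.ω₁_mem_lattice L.ω₂_mem_lattice) m3
  generalize ℘[L] (L.ω₁ / 2) = e₁ at *
  generalize ℘[L] (L.ω₂ / 2) = e₂ at *
  generalize ℘[L] ((L.ω₁ + L.ω₂) / 2) = e₃ at *
  have s12 : 4 * (e₁ ^ 2 + e₁ * e₂ + e₂ ^ 2) = L.g₂ := by
    have h1 : (e₁ - e₂) * (4 * (e₁ ^ 2 + e₁ * e₂ + e₂ ^ 2) - L.g₂) = 0 := by linear_combination r1 - r2
    exact sub_eq_zero.1 ((mul_eq_zero.1 h1).resolve_left (sub_ne_zero.2 d12))
  have s13 : 4 * (e₁ ^ 2 + e₁ * e₃ + e₃ ^ 2) = L.g₂ := by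
    have h1 : (e₁ - e₃) * (4 * (e₁ ^ 2 + e₁ * e₃ + e₃ ^ 2) - L.g₂) = 0 := by linear_combination r1 - r3
    exact sub_eq_zero.1 ((mul_eq_zero.1 h1).resolve_left (sub_ne_zero.2 d13))
  have s : e₃ = -(e₁ + e₂) := by
    have h1 : (e₂ - e₃) * (e₁ + e₂ + e₃) = 0 := by linear_combination (s12 - s13) / 4
    have h2 := (mul_eq_zero.1 h1).resolve_left (sub_ne_zero.2 d23)
    linear_combination h2
  have hg3 : L.g₃ = -4 * e₁ * e₂ * (e₁ + e₂) := by linear_combination -r1 + e₁ * s12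
  refine ⟨![e₁, e₂, e₃], ?_, fun x => ?_⟩
  · intro i j hij
    fin_cases i <;> fin_cases j <;> simp at hij ⊢
    · exact d12 hij
    · exact d13 hij
    · exact d12 hij.symm
    · exact d23 hij
    · exact d13 hij.symm
    · exact d23 hij.symm
  · simp only [Matrix.cons_val_zero, Matrix.cons_val_one, Matrix.cons_val]
    rw [← s12, hg3, s]
    ring

end Run7.h153.EE
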