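import Pool.Agent.Run7.h153.EE.G
import Pool.Agent.Run7.h153.EE.R

/-!
# Two classes in `K_1(E₁ × E₂)` with independent regulators
-/

set_option autoImplicit false

open Filter MeasureTheory
open scoped Topology ComplexConjugate

namespace Run7.h153.EE

theorem exists_order {e ε : Fin 3 → ℂ} (he : Function.Injective e) (hε : Function.Injective ε) :
    ∃ σ : Equiv.Perm (Fin 3), Dl (e 1 - e 0) (e 2 - e 0) (ε (σ 1) - ε (σ 0)) (ε (σ 2) - ε (σ 0)) ≠ 0 := by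
  by_contra h
  push Not at h
  have h1 := h 1
  have h2 := h (Equiv.swap 1 2)
  have h3 := h (Equiv.swap 0 1)
  have s1 : (Equiv.swap (1 : Fin 3) 2) 0 = 0 := by decide
  have s2 : (Equiv.swap (1 : Fin 3) 2) 1 = 2 := by decide
  have s3 : (Equiv.swap (1 : Fin 3) 2) 2 = 1 := by decide
  have s4 : (Equiv.swap (0 : Fin 3) 1) 0 = 1 := by decide
  have s5 : (Equiv.swap (0 : Fin 3) 1) 1 = 0 := by decide
  have s6 : (Equiv.swap (0 : Fin 3) 1) 2 = 2 := by decide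
  rw [s1, s2, s3] at h2
  rw [s4, s5, s6] at h3
  simp only [Equiv.Perm.coe_one, id_eq] at h1
  unfold Dl at h1 h2 h3
  have a1 : e 1 - e 0 ≠ 0 := sub_ne_zero.2 (he.ne (by decide))
  have a2 : e 2 - e 0 ≠ 0 := sub_ne_zero.2 (he.ne (by decide))
  have a12 : e 2 - e 0 - (e 1 - e 0) ≠ 0 := by
    rw [sub_sub_sub_cancel_right]
    exact sub_ne_zero.2 (he.ne (by decide))
  have b1 : ε 1 - ε 0 ≠ 0 := sub_ne_zero.2 (hε.ne (by decide))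
  have b2 : ε 2 - ε 0 ≠ 0 := sub_ne_zero.2 (hε.ne (by decide))
  have e3 : ε 2 - ε 1 = ε 2 - ε 0 - (ε 1 - ε 0) := by ring
  have e4 : ε 0 - ε 1 = -(ε 1 - ε 0) := by ring
  rw [e3, e4] at h3
  generalize e 1 - e 0 = x₁ at *
  generalize e 2 - e 0 = x₂ at *
  generalize ε 1 - ε 0 = y₁ at *
  generalize ε 2 - ε 0 = y₂ at *
  have c1 : (x₂ - x₁) * (x₂ + x₁) * y₁ = 0 := by linear_combination x₂ * h1 + x₁ * h2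
  have c2 : x₂ + x₁ = 0 := by
    rcases mul_eq_zero.1 c1 with h | h
    · exact (mul_eq_zero.1 h).resolve_left a12
    · exact absurd h b1
  have c3 : x₂ = -x₁ := by linear_combination c2
  subst c3
  have c4 : x₁ * (y₁ + y₂) = 0 := by linear_combination -h1
  have c5 : y₂ = -y₁ := by
    have := (mul_eq_zero.1 c4).resolve_left a1
    linear_combination this
  subst c5
  have c6 : x₁ * y₁ = 0 := by linear_combination h3 / 3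
  exact (mul_ne_zero a1 b1) c6

theorem perm_prod (ε : Fin 3 → ℂ) (σ : Equiv.Perm (Fin 3)) (x : ℂ) :
    (x - ε (σ 0)) * (x - ε (σ 1)) * (x - ε (σ 2)) = (x - ε 0) * (x - ε 1) * (x - ε 2) := by
  have h1 := Equiv.prod_comp σ fun i => x - ε i
  rwa [Fin.prod_univ_three, Fin.prod_univ_three] at h1

/-- the main inequality -/
theorem im_neg {U J₀ J' Ψ : ℂ} {κ K : ℝ} (hκ : 0 < κ) (hU : U ≠ 0) (hJ₀ : J₀ ≠ 0) (hK : 0 < K)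
    (hJ' : J'.re ≤ -κ) (hJK : ‖J'‖ ≤ K) (hΨ : ‖Ψ - Complex.I * J₀ * U‖ < κ * ‖J₀‖ * ‖U‖ / K) :
    (Ψ * J' * conj (U * J₀)).im < 0 := by
  have e1 : Ψ * J' * conj (U * J₀) =
      Complex.I * (((‖J₀‖ ^ 2 * ‖U‖ ^ 2 : ℝ) : ℂ) * J') + (Ψ - Complex.I * J₀ * U) * J' * conj (U * J₀) := by
    have h1 : J₀ * conj J₀ = ((‖J₀‖ ^ 2 : ℝ) : ℂ) := by rw [Complex.mul_conj, Complex.normSq_eq_norm_sq]
    have h2 : U * conj U = ((‖U‖ ^ 2 : ℝ) : ℂ) := by rw [Complex.mul_conj, Complex.normSq_eq_norm_sq]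
    rw [Complex.ofReal_mul, ← h1, ← h2, map_mul]
    ring
  have h0 : 0 < ‖J₀‖ := norm_pos_iff.2 hJ₀
  have h0' : 0 < ‖U‖ := norm_pos_iff.2 hU
  have h2 : ‖(Ψ - Complex.I * J₀ * U) * J' * conj (U * J₀)‖ < κ * (‖J₀‖ ^ 2 * ‖U‖ ^ 2) := by
    rw [norm_mul, norm_mul, Complex.norm_conj, norm_mul]
    calc ‖Ψ - Complex.I * J₀ * U‖ * ‖J'‖ * (‖U‖ * ‖J₀‖) ≤ ‖Ψ - Complex.I * J₀ * U‖ * K * (‖U‖ * ‖J₀‖) := by
          gcongr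
      _ < κ * ‖J₀‖ * ‖U‖ / K * K * (‖U‖ * ‖J₀‖) := by gcongr
      _ = κ * (‖J₀‖ ^ 2 * ‖U‖ ^ 2) := by field_simp
  have h3 : ((Ψ - Complex.I * J₀ * U) * J' * conj (U * J₀)).im < κ * (‖J₀‖ ^ 2 * ‖U‖ ^ 2) :=
    lt_of_le_of_lt ((le_abs_self _).trans (Complex.abs_im_le_norm _)) h2
  rw [e1, Complex.add_im, Complex.mul_im, Complex.I_re, Complex.I_im, zero_mul, zero_add, one_mul,
    Complex.re_ofReal_mul]
  have h4 : ‖J₀‖ ^ 2 * ‖U‖ ^ 2 * J'.re ≤ ‖J₀‖ ^ 2 * ‖U‖ ^ 2 * (-κ) := by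
    have : 0 ≤ ‖J₀‖ ^ 2 * ‖U‖ ^ 2 := by positivity
    gcongr
  linarith

theorem asm (hA : S_A) (hB : S_B) (hD : S_D) (L₁ L₂ : PeriodPair) :
    ∃ B C α β γ α' β' γ' : ℂ, Glue L₁ L₂ B C α β γ α' β' γ' ∧
    ∃ (L : PeriodPair) (m : ℕ) (B₁ C₁ α₁ β₁ γ₁ α₁' β₁' γ₁' : ℂ), 0 < m ∧
      (∀ l ∈ L.lattice, (m : ℂ) * l ∈ L₁.lattice) ∧ Glue L L₂ B₁ C₁ α₁ β₁ γ₁ α₁' β₁' γ₁' ∧
      (α₁ / γ₁ * conj (α₁' / γ₁') * (∫ t, Jf B₁ C₁ t) *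
        conj (α / γ * conj (α' / γ') * ∫ t, Jf B C t)).im < 0 := by
  obtain ⟨e, hei, he⟩ := exists_e L₁
  obtain ⟨ε₀, hεi, hε₀⟩ := exists_e L₂
  obtain ⟨σ, hσ⟩ := exists_order hei hεi
  have hε : Function.Injective fun i => ε₀ (σ i) := hεi.comp σ.injective
  have hε' : ∀ x : ℂ, 4 * x ^ 3 - L₂.g₂ * x - L₂.g₃ =
      4 * ((x - ε₀ (σ 0)) * (x - ε₀ (σ 1)) * (x - ε₀ (σ 2))) := fun x => by rw [perm_prod, hε₀]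
  set x₁ := e 1 - e 0 with hx₁
  set x₂ := e 2 - e 0 with hx₂
  set y₁ := ε₀ (σ 1) - ε₀ (σ 0) with hy₁
  set y₂ := ε₀ (σ 2) - ε₀ (σ 0) with hy₂
  have a1 : x₁ ≠ 0 := sub_ne_zero.2 (hei.ne (by decide))
  have a2 : x₂ ≠ 0 := sub_ne_zero.2 (hei.ne (by decide))
  have a12 : x₁ ≠ x₂ := by
    intro h
    have h1 : e 1 = e 2 := by linear_combination h
    exact absurd (hei h1) (by decide)
  have g12 : y₂ - y₁ ≠ 0 := by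
    rw [hy₁, hy₂, sub_sub_sub_cancel_right]
    exact sub_ne_zero.2 (hε.ne (a₁ := 2) (a₂ := 1) (by decide))
  obtain ⟨γ, hγ⟩ := IsAlgClosed.exists_pow_nat_eq (4 * Pp x₁ x₂ y₁ y₂ ^ 3) (n := 2) (by norm_num)
  obtain ⟨γ', hγ'⟩ := IsAlgClosed.exists_pow_nat_eq
    (-4 * Qp x₁ x₂ y₁ y₂ ^ 3 / (Bp x₁ x₂ y₁ y₂ * Cp x₁ x₂ y₁ y₂)) (n := 2) (by norm_num)
  have hG := glue (L := L₁) (L₂ := L₂) (e := e) (ε := fun i => ε₀ (σ i)) hε he hε' hx₁ hx₂ hy₁ hy₂ a1 a2 a12 hσ hγ hγ'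
  obtain ⟨⟨hB0, hB1, hC0, hC1, hBC⟩, ⟨hP0, hγ0, hQ0, hγ'0⟩, -⟩ := id hG
  obtain ⟨δ, κ, K, hδ, hκ, hJ⟩ := hD _ _ hB0 hB1 hC0 hC1 hBC
  have hJ0 := hJ (Bp x₁ x₂ y₁ y₂) (Cp x₁ x₂ y₁ y₂) (by simpa using hδ) (by simpa using hδ)
  set J₀ := ∫ t, Jf (Bp x₁ x₂ y₁ y₂) (Cp x₁ x₂ y₁ y₂) t with hJ₀
  have hJn : J₀ ≠ 0 := by
    intro h
    rw [h] at hJ0
    have := hJ0.2.1
    simp at this
    linarith
  have hK : 0 < K := lt_of_lt_of_le (norm_pos_iff.2 hJn) hJ0.2.2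
  refine ⟨_, _, _, _, _, _, _, _, hG, ?_⟩
  rw [← hJ₀]
  set U : ℂ := Pp x₁ x₂ y₁ y₂ / γ * conj (Qp x₁ x₂ y₁ y₂ / γ') with hU
  have hU0 : U ≠ 0 := mul_ne_zero (div_ne_zero hP0 hγ0)
    (by rw [Ne, map_eq_zero]; exact div_ne_zero hQ0 hγ'0)
  set c : ℂ := Complex.I * J₀ with hc
  have hc0 : c ≠ 0 := mul_ne_zero Complex.I_ne_zero hJn
  -- the roots of `c L₁`
  set e0 : Fin 3 → ℂ := fun i => e i / c ^ 2 with he0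
  have he0i : Function.Injective e0 := by
    intro i j hij
    exact hei ((div_left_inj' (pow_ne_zero 2 hc0)).1 hij)
  have he0r : ∀ x : ℂ, 4 * x ^ 3 - L₁.g₂ / c ^ 4 * x - L₁.g₃ / c ^ 6 =
      4 * ((x - e0 0) * (x - e0 1) * (x - e0 2)) := by
    intro x
    have h1 := he (c ^ 2 * x)
    have h2 : 4 * x ^ 3 - L₁.g₂ / c ^ 4 * x - L₁.g₃ / c ^ 6 =
        (4 * (c ^ 2 * x) ^ 3 - L₁.g₂ * (c ^ 2 * x) - L₁.g₃) / c ^ 6 := by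
      field_simp
    rw [h2, h1, he0]
    field_simp
  -- values at `e0`
  have X1 : e0 1 - e0 0 = x₁ / c ^ 2 := by rw [he0, hx₁]; ring
  have X2 : e0 2 - e0 0 = x₂ / c ^ 2 := by rw [he0, hx₂]; ring
  have vD : Dl (e0 1 - e0 0) (e0 2 - e0 0) y₁ y₂ = Dl x₁ x₂ y₁ y₂ / c ^ 2 := by
    rw [X1, X2]; unfold Dl; ring
  have vD0 : Dl (e0 1 - e0 0) (e0 2 - e0 0) y₁ y₂ ≠ 0 := by
    rw [vD]; exact div_ne_zero hσ (pow_ne_zero 2 hc0)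
  have vP : Pp (e0 1 - e0 0) (e0 2 - e0 0) y₁ y₂ = Pp x₁ x₂ y₁ y₂ / c ^ 2 := by
    unfold Pp; rw [vD, X1, X2]; field_simp
  have vQ : Qp (e0 1 - e0 0) (e0 2 - e0 0) y₁ y₂ = Qp x₁ x₂ y₁ y₂ := by
    unfold Qp; rw [vD, X1, X2]; field_simp
  have vB : Bp (e0 1 - e0 0) (e0 2 - e0 0) y₁ y₂ = Bp x₁ x₂ y₁ y₂ := by
    unfold Bp; rw [X1, X2]; field_simp
  have vC : Cp (e0 1 - e0 0) (e0 2 - e0 0) y₁ y₂ = Cp x₁ x₂ y₁ y₂ := by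
    unfold Cp; rw [X1, X2]; field_simp
  -- continuity
  have k1 : ContinuousAt (fun e' : Fin 3 → ℂ => e' 1 - e' 0) e0 := by fun_prop
  have k2 : ContinuousAt (fun e' : Fin 3 → ℂ => e' 2 - e' 0) e0 := by fun_prop
  have kD : ContinuousAt (fun e' : Fin 3 → ℂ => Dl (e' 1 - e' 0) (e' 2 - e' 0) y₁ y₂) e0 := by
    unfold Dl; fun_prop
  have kP : ContinuousAt (fun e' : Fin 3 → ℂ => Pp (e' 1 - e' 0) (e' 2 - e' 0) y₁ y₂) e0 := by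
    unfold Pp; exact ContinuousAt.div (by fun_prop) kD vD0
  have kQ : ContinuousAt (fun e' : Fin 3 → ℂ => Qp (e' 1 - e' 0) (e' 2 - e' 0) y₁ y₂) e0 := by
    unfold Qp; exact ContinuousAt.div (by fun_prop) kD vD0
  have n1 : e0 1 - e0 0 ≠ 0 := sub_ne_zero.2 (he0i.ne (by decide))
  have n2 : e0 2 - e0 0 ≠ 0 := sub_ne_zero.2 (he0i.ne (by decide))
  have kB : ContinuousAt (fun e' : Fin 3 → ℂ => Bp (e' 1 - e' 0) (e' 2 - e' 0) y₁ y₂) e0 := by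
    unfold Bp; exact ContinuousAt.div (by fun_prop) (by fun_prop) (mul_ne_zero n2 g12)
  have kC : ContinuousAt (fun e' : Fin 3 → ℂ => Cp (e' 1 - e' 0) (e' 2 - e' 0) y₁ y₂) e0 := by
    unfold Cp; exact ContinuousAt.div (by fun_prop) (by fun_prop) (mul_ne_zero n1 g12)
  have kγ : ContinuousAt (fun e' : Fin 3 → ℂ => 4 * Pp (e' 1 - e' 0) (e' 2 - e' 0) y₁ y₂ ^ 3) e0 :=
    continuousAt_const.mul (kP.pow 3)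
  have kγ' : ContinuousAt (fun e' : Fin 3 → ℂ => -4 * Qp (e' 1 - e' 0) (e' 2 - e' 0) y₁ y₂ ^ 3 /
      (Bp (e' 1 - e' 0) (e' 2 - e' 0) y₁ y₂ * Cp (e' 1 - e' 0) (e' 2 - e' 0) y₁ y₂)) e0 := by
    refine ContinuousAt.div (continuousAt_const.mul (kQ.pow 3)) (kB.mul kC) ?_
    rw [vB, vC]
    exact mul_ne_zero hB0 hC0
  -- the function `Θ`
  have kΘ : ContinuousAt (fun p : ℂ × ℂ × ℂ × ℂ => p.1 / p.2.1 * conj (p.2.2.1 / p.2.2.2))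
      (Pp x₁ x₂ y₁ y₂ / c ^ 2, γ / c ^ 3, Qp x₁ x₂ y₁ y₂, γ') := by
    refine ContinuousAt.mul (ContinuousAt.div (by fun_prop) (by fun_prop) ?_)
      (Complex.continuous_conj.continuousAt.comp (ContinuousAt.div (by fun_prop) (by fun_prop) ?_))
    · exact div_ne_zero hγ0 (pow_ne_zero 3 hc0)
    · exact hγ'0
  have vΘ : Pp x₁ x₂ y₁ y₂ / c ^ 2 / (γ / c ^ 3) * conj (Qp x₁ x₂ y₁ y₂ / γ') = Complex.I * J₀ * U := by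
    rw [hU, ← hc]
    field_simp
  have hη : 0 < κ * ‖J₀‖ * ‖U‖ / K := by
    have := norm_pos_iff.2 hJn
    have := norm_pos_iff.2 hU0
    positivity
  obtain ⟨η, hη0, hΘ⟩ := Metric.continuousAt_iff.1 kΘ _ hη
  -- the neighbourhood
  have ev : ∀ᶠ e' : Fin 3 → ℂ in 𝓝 e0, (e' 1 - e' 0 ≠ 0 ∧ e' 2 - e' 0 ≠ 0 ∧ e' 1 - e' 0 ≠ e' 2 - e' 0 ∧
      Dl (e' 1 - e' 0) (e' 2 - e' 0) y₁ y₂ ≠ 0) ∧
      ‖Bp (e' 1 - e' 0) (e' 2 - e' 0) y₁ y₂ - Bp x₁ x₂ y₁ y₂‖ < δ ∧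
      ‖Cp (e' 1 - e' 0) (e' 2 - e' 0) y₁ y₂ - Cp x₁ x₂ y₁ y₂‖ < δ ∧
      ‖Pp (e' 1 - e' 0) (e' 2 - e' 0) y₁ y₂ - Pp x₁ x₂ y₁ y₂ / c ^ 2‖ < η ∧
      ‖Qp (e' 1 - e' 0) (e' 2 - e' 0) y₁ y₂ - Qp x₁ x₂ y₁ y₂‖ < η ∧
      (∃ w : ℂ, w ^ 2 = 4 * Pp (e' 1 - e' 0) (e' 2 - e' 0) y₁ y₂ ^ 3 ∧ ‖w - γ / c ^ 3‖ < η) ∧
      ∃ w : ℂ, w ^ 2 = -4 * Qp (e' 1 - e' 0) (e' 2 - e' 0) y₁ y₂ ^ 3 /
      (Bp (e' 1 - e' 0) (e' 2 - e' 0) y₁ y₂ * Cp (e' 1 - e' 0) (e' 2 - e' 0) y₁ y₂) ∧ ‖w - γ'‖ < η := by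
    have E1 := k1.eventually_ne n1
    have E2 := k2.eventually_ne n2
    have E3 : ∀ᶠ e' : Fin 3 → ℂ in 𝓝 e0, e' 1 - e' 0 ≠ e' 2 - e' 0 := by
      have h1 : ContinuousAt (fun e' : Fin 3 → ℂ => e' 1 - e' 0 - (e' 2 - e' 0)) e0 := by fun_prop
      have h2 : e0 1 - e0 0 - (e0 2 - e0 0) ≠ 0 := by
        rw [sub_sub_sub_cancel_right]
        exact sub_ne_zero.2 (he0i.ne (by decide))
      filter_upwards [h1.eventually_ne h2] with e' h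
      exact sub_ne_zero.1 h
    have E4 := kD.eventually_ne vD0
    have E5 := Metric.continuousAt_iff'.1 kB δ hδ
    have E6 := Metric.continuousAt_iff'.1 kC δ hδ
    have E7 := Metric.continuousAt_iff'.1 kP η hη0
    have E8 := Metric.continuousAt_iff'.1 kQ η hη0
    simp only [vB, vC, vP, vQ, dist_eq_norm] at E5 E6 E7 E8
    have E9 : ∀ᶠ e' : Fin 3 → ℂ in 𝓝 e0, ∃ w : ℂ, w ^ 2 = 4 * Pp (e' 1 - e' 0) (e' 2 - e' 0) y₁ y₂ ^ 3 ∧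
        ‖w - γ / c ^ 3‖ < η := by
      have h1 : 4 * Pp (e0 1 - e0 0) (e0 2 - e0 0) y₁ y₂ ^ 3 = (γ / c ^ 3) ^ 2 := by
        rw [vP, div_pow γ, hγ]
        field_simp
      have h2 := sqrt_near (w₀ := γ / c ^ 3) hη0
      rw [← h1] at h2
      exact kγ.eventually h2
    have E10 : ∀ᶠ e' : Fin 3 → ℂ in 𝓝 e0, ∃ w : ℂ, w ^ 2 = -4 * Qp (e' 1 - e' 0) (e' 2 - e' 0) y₁ y₂ ^ 3 /
        (Bp (e' 1 - e' 0) (e' 2 - e' 0) y₁ y₂ * Cp (e' 1 - e' 0) (e' 2 - e' 0) y₁ y₂) ∧ ‖w - γ'‖ < η := by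
      have h1 : -4 * Qp (e0 1 - e0 0) (e0 2 - e0 0) y₁ y₂ ^ 3 /
          (Bp (e0 1 - e0 0) (e0 2 - e0 0) y₁ y₂ * Cp (e0 1 - e0 0) (e0 2 - e0 0) y₁ y₂) = γ' ^ 2 := by
        rw [vQ, vB, vC, hγ']
      have h2 := sqrt_near (w₀ := γ') hη0
      rw [← h1] at h2
      exact kγ'.eventually h2
    filter_upwards [E1, E2, E3, E4, E5, E6, E7, E8, E9, E10] with e' h1 h2 h3 h4 h5 h6 h7 h8 h9 h10
    exact ⟨⟨h1, h2, h3, h4⟩, h5, h6, h7, h8, h9, h10⟩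
  obtain ⟨ρ, hρ, hball⟩ := Metric.eventually_nhds_iff.1 ev
  obtain ⟨δ', hδ', hroots⟩ := hB _ _ e0 he0i he0r ρ hρ
  obtain ⟨L, m, hm, hmL, hg2, hg3⟩ := hA L₁ c hc0 δ' hδ'
  obtain ⟨e', he'r, he'n⟩ := hroots _ _ hg2 hg3
  have hdist : dist e' e0 < ρ := (dist_pi_lt_iff hρ).2 fun i => by rw [dist_eq_norm]; exact he'n i
  obtain ⟨⟨h1, h2, h3, h4⟩, h5, h6, h7, h8, ⟨γ₁, hγ₁, h9⟩, γ₁', hγ₁', h10⟩ := hball hdist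
  have hG' := glue (L := L) (L₂ := L₂) (e := e') (ε := fun i => ε₀ (σ i)) hε he'r hε' rfl rfl hy₁ hy₂ h1 h2 h3 h4
    hγ₁ hγ₁'
  have hJ1 := hJ _ _ h5 h6
  refine ⟨L, m, _, _, _, _, _, _, _, _, hm, hmL, hG', ?_⟩
  refine im_neg hκ hU0 hJn hK hJ1.2.1 hJ1.2.2 ?_
  have h11 := @hΘ (Pp (e' 1 - e' 0) (e' 2 - e' 0) y₁ y₂, γ₁, Qp (e' 1 - e' 0) (e' 2 - e' 0) y₁ y₂, γ₁') (by
    simp only [Prod.dist_eq, dist_eq_norm]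
    exact max_lt h7 (max_lt h9 (max_lt h8 h10)))
  simp only [dist_eq_norm] at h11
  rwa [vΘ] at h11

end Run7.h153.EE
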