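import Pool.Agent.Run7.h153.EE.Asm
import Pool.Agent.Run7.h153.EE.A
import Pool.Agent.Run7.h819.EE.B

/-!
# The rational span of two complex numbers, and the regulators of two cycles
-/

set_option autoImplicit false

open MeasureTheory
open scoped ComplexConjugate

namespace Run7.h153.EE

/-- the rational span of two complex numbers independent over `ℝ` is dense -/
theorem dense_pair {a b : ℂ} (h : (b * conj a).im ≠ 0) :
    Dense (Submodule.span ℚ {a, b} : Set ℂ) := by
  have h1 : DenseRange fun p : ℚ × ℚ => ((p.1 : ℝ), (p.2 : ℝ)) :=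
    DenseRange.prodMap Rat.denseRange_cast Rat.denseRange_cast
  have h2 : Function.Surjective fun p : ℝ × ℝ => (p.1 : ℂ) * a + (p.2 : ℂ) * b := by
    intro z
    have h3 : a.re * b.im - a.im * b.re ≠ 0 := by
      intro h4
      apply h
      simp only [Complex.mul_im, Complex.conj_re, Complex.conj_im]
      linarith
    refine ⟨((z.re * b.im - z.im * b.re) / (a.re * b.im - a.im * b.re),
      (a.re * z.im - a.im * z.re) / (a.re * b.im - a.im * b.re)), ?_⟩
    apply Complex.ext
    · simp only [Complex.add_re, Complex.re_ofReal_mul]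
      rw [div_mul_eq_mul_div, div_mul_eq_mul_div, ← add_div, div_eq_iff h3]
      ring
    · simp only [Complex.add_im, Complex.im_ofReal_mul]
      rw [div_mul_eq_mul_div, div_mul_eq_mul_div, ← add_div, div_eq_iff h3]
      ring
  have h3 : Continuous fun p : ℝ × ℝ => (p.1 : ℂ) * a + (p.2 : ℂ) * b := by fun_prop
  have h4 := h2.denseRange.comp h1 h3
  refine h4.mono ?_
  rintro _ ⟨p, rfl⟩
  simp only [Function.comp_apply, SetLike.mem_coe]
  rw [Submodule.mem_span_pair]
  refine ⟨p.1, p.2, ?_⟩
  rw [Algebra.smul_def, Algebra.smul_def]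
  simp

end Run7.h153.EE
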