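import Pool.Agent.Run7.h153.EE.Iface

/-!
# Gluing two elliptic curves along their points of order two
-/

set_option autoImplicit false

open Filter
open scoped Topology ComplexConjugate

namespace Run7.h153.EE

/-- `S : y² = (t²-1)(t²-B)(t²-C)` is mapped to the elliptic curves of `L` and `L₂` -/
def Glue (L L₂ : PeriodPair) (B C α β γ α' β' γ' : ℂ) : Prop :=
  (B ≠ 0 ∧ B ≠ 1 ∧ C ≠ 0 ∧ C ≠ 1 ∧ B ≠ C) ∧ (α ≠ 0 ∧ γ ≠ 0 ∧ α' ≠ 0 ∧ γ' ≠ 0) ∧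
  (∀ t y : ℂ, y ^ 2 = Fs B C t →
    (γ * y) ^ 2 = 4 * (α * t ^ 2 + β) ^ 3 - L.g₂ * (α * t ^ 2 + β) - L.g₃) ∧
  ∀ t y : ℂ, t ≠ 0 → y ^ 2 = Fs B C t →
    (γ' * y / t ^ 3) ^ 2 = 4 * (α' / t ^ 2 + β') ^ 3 - L₂.g₂ * (α' / t ^ 2 + β') - L₂.g₃

/-- the determinant -/
def Dl (x₁ x₂ y₁ y₂ : ℂ) : ℂ := x₂ * y₁ - x₁ * y₂

/-- the parameter `α` -/
noncomputable def Pp (x₁ x₂ y₁ y₂ : ℂ) : ℂ := x₁ * x₂ * (y₂ - y₁) / Dl x₁ x₂ y₁ y₂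

/-- the parameter `α'` -/
noncomputable def Qp (x₁ x₂ y₁ y₂ : ℂ) : ℂ := y₁ * y₂ * (x₁ - x₂) / Dl x₁ x₂ y₁ y₂

/-- the parameter `B` -/
noncomputable def Bp (x₁ x₂ y₁ y₂ : ℂ) : ℂ := y₂ * (x₂ - x₁) / (x₂ * (y₂ - y₁))

/-- the parameter `C` -/
noncomputable def Cp (x₁ x₂ y₁ y₂ : ℂ) : ℂ := y₁ * (x₂ - x₁) / (x₁ * (y₂ - y₁))

variable {x₁ x₂ y₁ y₂ : ℂ}

theorem glue {L L₂ : PeriodPair} {e ε : Fin 3 → ℂ} (hε : Function.Injective ε)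
    (he : ∀ x : ℂ, 4 * x ^ 3 - L.g₂ * x - L.g₃ = 4 * ((x - e 0) * (x - e 1) * (x - e 2)))
    (hε' : ∀ x : ℂ, 4 * x ^ 3 - L₂.g₂ * x - L₂.g₃ = 4 * ((x - ε 0) * (x - ε 1) * (x - ε 2)))
    (hx₁ : x₁ = e 1 - e 0) (hx₂ : x₂ = e 2 - e 0) (hy₁ : y₁ = ε 1 - ε 0) (hy₂ : y₂ = ε 2 - ε 0)
    (h1 : x₁ ≠ 0) (h2 : x₂ ≠ 0) (h12 : x₁ ≠ x₂) (hD : Dl x₁ x₂ y₁ y₂ ≠ 0) {γ γ' : ℂ}
    (hγ : γ ^ 2 = 4 * Pp x₁ x₂ y₁ y₂ ^ 3)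
    (hγ' : γ' ^ 2 = -4 * Qp x₁ x₂ y₁ y₂ ^ 3 / (Bp x₁ x₂ y₁ y₂ * Cp x₁ x₂ y₁ y₂)) :
    Glue L L₂ (Bp x₁ x₂ y₁ y₂) (Cp x₁ x₂ y₁ y₂) (Pp x₁ x₂ y₁ y₂) (e 0 - Pp x₁ x₂ y₁ y₂) γ
      (Qp x₁ x₂ y₁ y₂) (ε 0 - Qp x₁ x₂ y₁ y₂) γ' := by
  have g1 : y₁ ≠ 0 := by rw [hy₁]; exact sub_ne_zero.2 (hε.ne (by decide))
  have g2 : y₂ ≠ 0 := by rw [hy₂]; exact sub_ne_zero.2 (hε.ne (by decide))
  have g12 : y₂ - y₁ ≠ 0 := by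
    rw [hy₁, hy₂, sub_sub_sub_cancel_right]
    exact sub_ne_zero.2 (hε.ne (by decide))
  have h21 : x₂ - x₁ ≠ 0 := sub_ne_zero.2 h12.symm
  have h12' : x₁ - x₂ ≠ 0 := sub_ne_zero.2 h12
  have hB0 : Bp x₁ x₂ y₁ y₂ ≠ 0 := div_ne_zero (mul_ne_zero g2 h21) (mul_ne_zero h2 g12)
  have hC0 : Cp x₁ x₂ y₁ y₂ ≠ 0 := div_ne_zero (mul_ne_zero g1 h21) (mul_ne_zero h1 g12)
  have hP0 : Pp x₁ x₂ y₁ y₂ ≠ 0 := div_ne_zero (mul_ne_zero (mul_ne_zero h1 h2) g12) hD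
  have hQ0 : Qp x₁ x₂ y₁ y₂ ≠ 0 := div_ne_zero (mul_ne_zero (mul_ne_zero g1 g2) h12') hD
  have hB1 : Bp x₁ x₂ y₁ y₂ ≠ 1 := by
    unfold Bp
    rw [Ne, div_eq_one_iff_eq (mul_ne_zero h2 g12)]
    intro h
    exact hD (by unfold Dl; linear_combination h)
  have hC1 : Cp x₁ x₂ y₁ y₂ ≠ 1 := by
    unfold Cp
    rw [Ne, div_eq_one_iff_eq (mul_ne_zero h1 g12)]
    intro h
    exact hD (by unfold Dl; linear_combination h)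
  have hBC : Bp x₁ x₂ y₁ y₂ ≠ Cp x₁ x₂ y₁ y₂ := by
    unfold Bp Cp
    rw [Ne, div_eq_div_iff (mul_ne_zero h2 g12) (mul_ne_zero h1 g12)]
    intro h
    have h3 : (x₂ - x₁) * (y₂ - y₁) * Dl x₁ x₂ y₁ y₂ = 0 := by unfold Dl; linear_combination -h
    exact (mul_ne_zero (mul_ne_zero h21 g12) hD) h3
  have hγ0 : γ ≠ 0 := by
    rintro rfl
    have h3 : (4 : ℂ) * Pp x₁ x₂ y₁ y₂ ^ 3 ≠ 0 := mul_ne_zero (by norm_num) (pow_ne_zero _ hP0)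
    exact h3 (by rw [← hγ]; ring)
  have hγ'0 : γ' ≠ 0 := by
    rintro rfl
    have h3 : -4 * Qp x₁ x₂ y₁ y₂ ^ 3 / (Bp x₁ x₂ y₁ y₂ * Cp x₁ x₂ y₁ y₂) ≠ 0 :=
      div_ne_zero (mul_ne_zero (by norm_num) (pow_ne_zero _ hQ0)) (mul_ne_zero hB0 hC0)
    exact h3 (by rw [← hγ']; ring)
  -- relations
  have r1 : Pp x₁ x₂ y₁ y₂ * Bp x₁ x₂ y₁ y₂ = Pp x₁ x₂ y₁ y₂ + x₁ := by
    unfold Pp Bp
    rw [div_mul_div_comm, div_add' _ _ _ hD, div_eq_div_iff (mul_ne_zero hD (mul_ne_zero h2 g12)) hD]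
    unfold Dl
    ring
  have r2 : Pp x₁ x₂ y₁ y₂ * Cp x₁ x₂ y₁ y₂ = Pp x₁ x₂ y₁ y₂ + x₂ := by
    unfold Pp Cp
    rw [div_mul_div_comm, div_add' _ _ _ hD, div_eq_div_iff (mul_ne_zero hD (mul_ne_zero h1 g12)) hD]
    unfold Dl
    ring
  have r3 : (Qp x₁ x₂ y₁ y₂ + y₁) * Bp x₁ x₂ y₁ y₂ = Qp x₁ x₂ y₁ y₂ := by
    unfold Qp Bp
    rw [div_add' _ _ _ hD, div_mul_div_comm, div_eq_div_iff (mul_ne_zero hD (mul_ne_zero h2 g12)) hD]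
    unfold Dl
    ring
  have r4 : (Qp x₁ x₂ y₁ y₂ + y₂) * Cp x₁ x₂ y₁ y₂ = Qp x₁ x₂ y₁ y₂ := by
    unfold Qp Cp
    rw [div_add' _ _ _ hD, div_mul_div_comm, div_eq_div_iff (mul_ne_zero hD (mul_ne_zero h1 g12)) hD]
    unfold Dl
    ring
  generalize Pp x₁ x₂ y₁ y₂ = P at *
  generalize Qp x₁ x₂ y₁ y₂ = Q at *
  generalize Bp x₁ x₂ y₁ y₂ = B at *
  generalize Cp x₁ x₂ y₁ y₂ = C at *
  refine ⟨⟨hB0, hB1, hC0, hC1, hBC⟩, ⟨hP0, hγ0, hQ0, hγ'0⟩, fun t y h => ?_, fun t y ht h => ?_⟩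
  · rw [mul_pow, hγ, h, he, Fs]
    have e1 : P * t ^ 2 + (e 0 - P) - e 0 = P * (t ^ 2 - 1) := by ring
    have e2 : P * t ^ 2 + (e 0 - P) - e 1 = P * (t ^ 2 - B) := by linear_combination r1 + hx₁
    have e3 : P * t ^ 2 + (e 0 - P) - e 2 = P * (t ^ 2 - C) := by linear_combination r2 + hx₂
    rw [e1, e2, e3]
    ring
  · rw [div_pow, mul_pow, hγ', h, hε', Fs]
    have e1 : Q / t ^ 2 + (ε 0 - Q) - ε 0 = Q * (1 - t ^ 2) / t ^ 2 := by field_simp; ring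
    have e2 : Q / t ^ 2 + (ε 0 - Q) - ε 1 = Q * (B - t ^ 2) / (B * t ^ 2) := by
      have e4 : Q / B = Q + y₁ := by rw [div_eq_iff hB0, r3]
      have e5 : Q * (B - t ^ 2) / (B * t ^ 2) = Q / t ^ 2 - Q / B := by field_simp
      rw [e5, e4, hy₁]
      ring
    have e3 : Q / t ^ 2 + (ε 0 - Q) - ε 2 = Q * (C - t ^ 2) / (C * t ^ 2) := by
      have e4 : Q / C = Q + y₂ := by rw [div_eq_iff hC0, r4]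
      have e5 : Q * (C - t ^ 2) / (C * t ^ 2) = Q / t ^ 2 - Q / C := by field_simp
      rw [e5, e4, hy₂]
      ring
    rw [e1, e2, e3]
    field_simp
    ring

/-- square roots near to a given one -/
theorem sqrt_near {w₀ : ℂ} {η : ℝ} (hη : 0 < η) : ∀ᶠ z in 𝓝 (w₀ ^ 2), ∃ w : ℂ, w ^ 2 = z ∧ ‖w - w₀‖ < η := by
  have h1 : ∀ᶠ z in 𝓝 (w₀ ^ 2), ‖z - w₀ ^ 2‖ < η ^ 2 := by
    have := Metric.ball_mem_nhds (w₀ ^ 2) (pow_pos hη 2)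
    filter_upwards [this] with z hz
    rwa [← dist_eq_norm]
  filter_upwards [h1] with z hz
  obtain ⟨w, hw⟩ := IsAlgClosed.exists_pow_nat_eq z (n := 2) (by norm_num)
  by_cases h : ‖w - w₀‖ < η
  · exact ⟨w, hw, h⟩
  · refine ⟨-w, by rw [neg_sq, hw], ?_⟩
    by_contra h'
    push Not at h h'
    have h2 : ‖z - w₀ ^ 2‖ = ‖w - w₀‖ * ‖-w - w₀‖ := by
      rw [← norm_mul, ← hw, ← norm_neg]
      congr 1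
      ring
    rw [h2] at hz
    have h3 : η ^ 2 ≤ ‖w - w₀‖ * ‖-w - w₀‖ := by
      rw [sq]
      exact mul_le_mul h h' hη.le (norm_nonneg _)
    linarith

end Run7.h153.EE
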