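import Mathlib

/-!
# Interface: regulators of `K_1` of products of two elliptic curves and of `C × C` (MP_b2b689_ag)

(The density of the regulator for `i = 3`, `j = 2`.)

**Products of elliptic curves.** For `B, C` with `1, B, C, 0` different let `S : y² = (t²-1)(t²-B)(t²-C)`. The function
`f = (t-1)/(t+1)` has the divisor `2 (1,0) - 2 (-1,0)`, and both points have the same image under the maps from `S` to
`E' : Y² = 4∏(X - α A_i - β)`, `X = α t² + β` and to `E₂`, `X₂ = α'/t² + β'`. So `(S, f)` is a class in `K_1(E' × E₂)`. Its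
regulator is, up to a factor, `∫ log|(t-1)/(t+1)| t / |(t²-1)(t²-B)(t²-C)| dt`, and its real part is negative since
the integrand is (`S_D`). By isogenies `E' → E₁` with lattices near to `c Λ₁` (`S_A`, `S_B`) the direction of the regulator
is rotated, hence the regulators span `ℂ = ℝ²` for ALL pairs of elliptic curves.

**Hyperelliptic curves.** `y² = D(x)`, `deg D = 2g+2`, `g ≥ 2`, two roots `e₁, e₂`: the class
`(Δ, (x-e₁)/(x-e₂)) - (Γ_ι, (x-e₁)/(x-e₂))` in `K_1(C × C)`; its regulator is the hermitian form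
`∫ log|(x-e₁)/(x-e₂)| p(x) conj(q(x)) / |D(x)| dx`; it is never a real multiple of the form `∫ p conj(q) / |D|` (`S_H`).

Deliver `theorem t_X : S_X` in `Pool/Agent/Run7/<you>/EE/X.lean`, importing `Pool.Agent.Run7.h153.EE.Iface`.
-/

set_option autoImplicit false

open MeasureTheory Polynomial

namespace Run7.h153.EE

/-- the sextic polynomial -/
noncomputable def Fs (B C t : ℂ) : ℂ := (t ^ 2 - 1) * (t ^ 2 - B) * (t ^ 2 - C)

/-- the integrand `log |(t-1)/(t+1)| t / |F(t)|` -/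
noncomputable def Jf (B C t : ℂ) : ℂ := ((Real.log (‖t - 1‖ / ‖t + 1‖) / ‖Fs B C t‖ : ℝ) : ℂ) * t

/-- D (150 lines). Uniform integrability and negativity of the real part.
Proof. Let `b² = B`, `c² = C`. Partial fractions in `u = t²`:
`1/((u-1)(u-B)(u-C)) = 1/((1-B)(1-C)(u-1)) + 1/((B-1)(B-C)(u-B)) + 1/((C-1)(C-B)(u-C))`, and
`1/|t²-B| ≤ (1/|t-b| + 1/|t+b|)/(2|b|)`; so `1/|F| ≤ K ∑_i 1/|t-r_i|` (six points `r_i = ±1, ±b, ±c`), `K` uniform for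
`(B,C)` near `(B₀,C₀)`. Let `R ≥ 2`, `R² ≥ 2 (1+|B|), 2 (1+|C|)`. For `|t| ≤ R`: `|log|t∓1|| ≤ 2(|t∓1|^(1/2) + |t∓1|^(-1/2))` and
`x^(1/2) y ≤ x^(3/2) + y^(3/2)`, so `|Jf| ≤ K' (1 + ∑_i |t-r_i|^(-3/2))`; here `∫_{|t| ≤ R} |t-r|^(-3/2) ≤ ∫_{|s| ≤ R+|r|} |s|^(-3/2)`
(`MeasureTheory.integrable_fun_norm_addHaar`). For `|t| > R`: `1/|F| ≤ 8/|t|^6` and the logarithm is at most `2`. This
gives `Integrable` and `K`. Negativity: `log(|t-1|/|t+1|) * Re t ≤ 0` everywhere (`|t-1| ≤ |t+1|` iff `Re t ≥ 0`), and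
on the square `Re t ∈ [1/4,1/2]`, `Im t ∈ [0,1/4]` it is at most `-c₀` while `|F| ≤ c₁` uniformly. -/
def S_D : Prop := ∀ B₀ C₀ : ℂ, B₀ ≠ 0 → B₀ ≠ 1 → C₀ ≠ 0 → C₀ ≠ 1 → B₀ ≠ C₀ →
  ∃ δ κ K : ℝ, 0 < δ ∧ 0 < κ ∧ ∀ B C : ℂ, ‖B - B₀‖ < δ → ‖C - C₀‖ < δ →
    Integrable (Jf B C) ∧ (∫ t, Jf B C t).re ≤ -κ ∧ ‖∫ t, Jf B C t‖ ≤ K

/-- A (100 lines, helper153). Commensurable lattices near to `c L`. -/
def S_A : Prop := ∀ (L : PeriodPair) (c : ℂ), c ≠ 0 → ∀ ε : ℝ, 0 < ε →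
  ∃ (L' : PeriodPair) (m : ℕ), 0 < m ∧ (∀ l ∈ L'.lattice, (m : ℂ) * l ∈ L.lattice) ∧
    ‖L'.g₂ - L.g₂ / c ^ 4‖ < ε ∧ ‖L'.g₃ - L.g₃ / c ^ 6‖ < ε

/-- B (60 lines). Continuity of the roots.
Proof. Let `r_1, r_2, r_3` be the roots of `4X³ - g₂'X - g₃'` (it splits over `ℂ`). For every `i`:
`4∏_j (e_i - r_j) = (g₂ - g₂') e_i + (g₃ - g₃')` is small, so that `|e_i - r_j| < ε` for some `j = j(i)` (`ε³` bound). If
`2ε` is at most the smallest distance of the `e_i` then `i ↦ j(i)` is injective, so it is a permutation; put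
`e'_i = r_{j(i)}`. -/
def S_B : Prop := ∀ (g₂ g₃ : ℂ) (e : Fin 3 → ℂ), Function.Injective e →
  (∀ x : ℂ, 4 * x ^ 3 - g₂ * x - g₃ = 4 * ((x - e 0) * (x - e 1) * (x - e 2))) → ∀ ε : ℝ, 0 < ε →
  ∃ δ : ℝ, 0 < δ ∧ ∀ g₂' g₃' : ℂ, ‖g₂' - g₂‖ < δ → ‖g₃' - g₃‖ < δ → ∃ e' : Fin 3 → ℂ,
    (∀ x : ℂ, 4 * x ^ 3 - g₂' * x - g₃' = 4 * ((x - e' 0) * (x - e' 1) * (x - e' 2))) ∧ ∀ i, ‖e' i - e i‖ < ε

/-- H (150 lines). The regulator of the class of two Weierstrass points is never a multiple of the polarization.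
Proof. (1) Integrability: with `D = a ∏ (x - r_i)` (distinct roots, `2g+2` of them) `1/|D| ≤ K ∑ 1/|x-r_i|` (partial
fractions or Lagrange interpolation of `1`: `1/D = ∑ 1/(D'(r_i)(x-r_i))`), and as in D; at infinity
`|x|^(2g-2)/|D| = O(|x|^-4)`. (2) Suppose that the forms agree on `p = q = x - e₁` and on `p = q = x - e₂` (degree `1 ≤ g-1`),
that is `∫ (log|(x-e₁)/(x-e₂)| - c) |x-e_i|² / |D| = 0`, `i = 1, 2`. Then with `ρ = exp c`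
`∫ (log|(x-e₁)/(x-e₂)| - c) (|x-e₁|² - ρ²|x-e₂|²) / |D| = 0`. But the integrand is `≥ 0` everywhere (both factors are `≥ 0` iff
`|x-e₁| ≥ ρ|x-e₂|`) and it is `> 0` outside of a circle and the roots (a null set). Contradiction. -/
def S_H : Prop := ∀ (g : ℕ) (D : ℂ[X]), 2 ≤ g → Squarefree D → D.natDegree = 2 * g + 2 → ∀ e₁ e₂ : ℂ, e₁ ≠ e₂ →
  D.eval e₁ = 0 → D.eval e₂ = 0 →
  (∀ k l : ℕ, k < g → l < g → Integrable fun x : ℂ =>
    ((Real.log (‖x - e₁‖ / ‖x - e₂‖) / ‖D.eval x‖ : ℝ) : ℂ) * (x ^ k * (starRingEnd ℂ) (x ^ l))) ∧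
  ∀ c : ℝ, ∃ p : ℂ[X], p.natDegree < g ∧
    ∫ x : ℂ, Real.log (‖x - e₁‖ / ‖x - e₂‖) * ‖p.eval x‖ ^ 2 / ‖D.eval x‖ ≠
      c * ∫ x : ℂ, ‖p.eval x‖ ^ 2 / ‖D.eval x‖

end Run7.h153.EE
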